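import Mathlib

/-! Sequences with logarithmic corrections do not have the form of Q1. -/

set_option autoImplicit false

open Filter Topology Real

namespace Pool.Agent.KFin

/-- `log n` times a real constant plus `log log n` is bounded only if ... -/
private theorem tendsto_loglog : Tendsto (fun x : ℝ => Real.log (Real.log x)) atTop atTop :=
  Real.tendsto_log_atTop.comp Real.tendsto_log_atTop

private theorem loglog_div : Tendsto (fun x : ℝ => Real.log (Real.log x) / Real.log x) atTop
    (𝓝 0) := by
  have h1 : Tendsto (fun x : ℝ => Real.log x / x) atTop (𝓝 0) := by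
    have := Real.isLittleO_log_id_atTop.tendsto_div_nhds_zero
    simpa using this
  exact h1.comp Real.tendsto_log_atTop

private theorem log_div : Tendsto (fun x : ℝ => Real.log x / x) atTop (𝓝 0) := by
  have := Real.isLittleO_log_id_atTop.tendsto_div_nhds_zero
  simpa using this

/-- If `β log x + γ x + 2 log log x` converges along a sequence tending to infinity: impossible. -/
private theorem no_lim {x : ℕ → ℝ} (hx : Tendsto x atTop atTop) (β γ c : ℝ)
    (h : Tendsto (fun k => β * Real.log (x k) + γ * x k + 2 * Real.log (Real.log (x k))) atTop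
      (𝓝 c)) : False := by
  have hx0 : ∀ᶠ k in atTop, 1 < x k := hx.eventually_gt_atTop 1
  have hl : Tendsto (fun k => Real.log (x k)) atTop atTop := Real.tendsto_log_atTop.comp hx
  have hll : Tendsto (fun k => Real.log (Real.log (x k))) atTop atTop :=
    Real.tendsto_log_atTop.comp hl
  -- γ = 0
  have h1 : Tendsto (fun k => (β * Real.log (x k) + γ * x k + 2 * Real.log (Real.log (x k))) / x k)
      atTop (𝓝 0) := h.div_atTop hx
  have h2 : Tendsto (fun k => β * (Real.log (x k) / x k) + γ +
      2 * (Real.log (Real.log (x k)) / Real.log (x k) * (Real.log (x k) / x k))) atTop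
      (𝓝 (β * 0 + γ + 2 * (0 * 0))) := by
    refine ((((log_div.comp hx).const_mul β)).add_const γ).add
      (((loglog_div.comp hx).mul (log_div.comp hx)).const_mul 2)
  have h3 : γ = 0 := by
    have e : (fun k => (β * Real.log (x k) + γ * x k + 2 * Real.log (Real.log (x k))) / x k)
        =ᶠ[atTop] fun k => β * (Real.log (x k) / x k) + γ +
      2 * (Real.log (Real.log (x k)) / Real.log (x k) * (Real.log (x k) / x k)) := by
      filter_upwards [hx0] with k hk
      have hk0 : x k ≠ 0 := by linarith
      have hk1 : Real.log (x k) ≠ 0 := (Real.log_pos hk).ne'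
      field_simp
    have := tendsto_nhds_unique (h1.congr' e) h2
    linarith
  subst h3
  -- β = 0
  have h4 : Tendsto (fun k => (β * Real.log (x k) + 0 * x k + 2 * Real.log (Real.log (x k))) /
      Real.log (x k)) atTop (𝓝 0) := h.div_atTop hl
  have h5 : Tendsto (fun k => β + 2 * (Real.log (Real.log (x k)) / Real.log (x k))) atTop
      (𝓝 (β + 2 * 0)) := ((loglog_div.comp hx).const_mul 2).const_add β
  have h6 : β = 0 := by
    have e : (fun k => (β * Real.log (x k) + 0 * x k + 2 * Real.log (Real.log (x k))) /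
        Real.log (x k)) =ᶠ[atTop] fun k => β + 2 * (Real.log (Real.log (x k)) / Real.log (x k)) := by
      filter_upwards [hx0] with k hk
      have hk1 : Real.log (x k) ≠ 0 := (Real.log_pos hk).ne'
      field_simp
      ring
    have := tendsto_nhds_unique (h4.congr' e) h5
    linarith
  subst h6
  have h7 : Tendsto (fun k => 0 * Real.log (x k) + 0 * x k + 2 * Real.log (Real.log (x k))) atTop
      atTop := by
    have : Tendsto (fun k => 2 * Real.log (Real.log (x k))) atTop atTop :=
      hll.const_mul_atTop (by norm_num)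
    refine this.congr fun k => by ring
  exact not_tendsto_nhds_of_tendsto_atTop h7 c h

/-- A sequence which is asymptotic to `A μ ^ n n ^ N / (n (log n) ^ 2)` along the even `n` is not
asymptotic to any `A' n ^ (α - 3) ν ^ n`. -/
theorem no_form {f : ℕ → ℝ} {N : ℕ} {μ A : ℝ} (hμ : 0 < μ) (hA : 0 < A)
    (h : Tendsto (fun k : ℕ => f (2 * k) / (((2 * k : ℕ) : ℝ) ^ N * μ ^ (2 * k) /
      (((2 * k : ℕ) : ℝ) * Real.log ((2 * k : ℕ) : ℝ) ^ 2))) atTop (𝓝 A)) (α ν A' : ℝ)
    (hA' : 0 < A') : ¬ Tendsto (fun k : ℕ => f (2 * k) /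
      (((2 * k : ℕ) : ℝ) ^ (α - 3) * ν ^ (2 * k))) atTop (𝓝 A') := by
  intro h'
  set x : ℕ → ℝ := fun k => ((2 * k : ℕ) : ℝ) with hxdef
  have hx : Tendsto x atTop atTop :=
    tendsto_natCast_atTop_atTop.comp (tendsto_id.const_mul_atTop' (by norm_num : 0 < 2))
  have hν : ν ≠ 0 := by
    rintro rfl
    have e : (fun k : ℕ => f (2 * k) / (((2 * k : ℕ) : ℝ) ^ (α - 3) * (0 : ℝ) ^ (2 * k)))
        =ᶠ[atTop] fun _ => (0 : ℝ) := by
      filter_upwards [eventually_ge_atTop 1] with k hk
      rw [zero_pow (by omega), mul_zero, div_zero]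
    exact hA'.ne' (tendsto_nhds_unique h' (tendsto_const_nhds.congr' e.symm))
  have hν' : 0 < |ν| := abs_pos.2 hν
  have hq := h'.div h hA.ne'
  have hq' := (Real.continuousAt_log (div_pos hA' hA).ne').tendsto.comp hq
  refine no_lim hx (α - 2 - N) (Real.log |ν| - Real.log μ) (-Real.log (A' / A)) ?_
  refine hq'.neg.congr' ?_
  filter_upwards [eventually_ge_atTop 2, h.eventually (lt_mem_nhds hA)] with k hk hpos
  have hx1 : 1 < x k := by
    simp only [hxdef]
    exact_mod_cast (by omega : 1 < 2 * k)
  have hx0 : 0 < x k := by linarith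
  have hl : 0 < Real.log (x k) := Real.log_pos hx1
  have hd : 0 < x k ^ N * μ ^ (2 * k) / (x k * Real.log (x k) ^ 2) := by positivity
  have hd' : 0 < x k ^ (α - 3) * |ν| ^ (2 * k) :=
    mul_pos (Real.rpow_pos_of_pos hx0 _) (pow_pos hν' _)
  have hf : 0 < f (2 * k) := by
    have h1 : 0 < f (2 * k) / (x k ^ N * μ ^ (2 * k) / (x k * Real.log (x k) ^ 2)) := hpos
    exact (div_pos_iff_of_pos_right hd).1 h1
  have hν2 : ν ^ (2 * k) = |ν| ^ (2 * k) := by
    rw [pow_mul, pow_mul, sq_abs]
  have e1 : f (2 * k) / (x k ^ (α - 3) * ν ^ (2 * k)) / (f (2 * k) /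
      (x k ^ N * μ ^ (2 * k) / (x k * Real.log (x k) ^ 2))) =
      (x k ^ N * μ ^ (2 * k) / (x k * Real.log (x k) ^ 2)) / (x k ^ (α - 3) * |ν| ^ (2 * k)) := by
    rw [hν2]
    field_simp
  have e2 : Real.log ((x k ^ N * μ ^ (2 * k) / (x k * Real.log (x k) ^ 2)) /
      (x k ^ (α - 3) * |ν| ^ (2 * k))) = N * Real.log (x k) + x k * Real.log μ -
      (Real.log (x k) + 2 * Real.log (Real.log (x k))) -
      ((α - 3) * Real.log (x k) + x k * Real.log |ν|) := by
    rw [Real.log_div hd.ne' hd'.ne', Real.log_div (by positivity) (by positivity),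
      Real.log_mul (by positivity) (by positivity), Real.log_mul (by positivity) (by positivity),
      Real.log_mul (Real.rpow_pos_of_pos hx0 _).ne' (by positivity), Real.log_rpow hx0,
      Real.log_pow, Real.log_pow, Real.log_pow, Real.log_pow]
    have e3 : x k = 2 * (k : ℝ) := by
      simp only [hxdef]
      push_cast
      ring
    have e4 : ((2 * k : ℕ) : ℝ) = x k := rfl
    rw [e4]
    push_cast
    ring
  show -Real.log (f (2 * k) / (x k ^ (α - 3) * ν ^ (2 * k)) / (f (2 * k) /
      (x k ^ N * μ ^ (2 * k) / (x k * Real.log (x k) ^ 2)))) = _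
  rw [e1, e2]
  ring

end Pool.Agent.KFin
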