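import Pool.Agent.KAmp.Final
import Pool.Agent.KTen.FinalT
import Pool.Agent.KFin.NoForm

/-! The asymptotics of all knot types with respect to a group of homeomorphisms. -/

set_option autoImplicit false

open Pool.Agent.LK Filter Topology

namespace Pool.Agent.KFin

open Pool.Agent.KTube Pool.Agent.KTen

variable {y : ℝ} {G : Subgroup (R3 ≃ₜ R3)}

/-- The amplitude relative to the unknot gives the asymptotics. -/
theorem asym_of_lim (hG : ∀ t : R3, Homeomorph.addRight t ∈ G)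
    (hG' : ∀ φ : R3 ≃ₜ R3, φ ∈ G ∨ φ * negY ∈ G) (hy : 10 ^ 24 ≤ y) {μ A : ℝ} (hμ : 0 < μ)
    (hA : 0 < A) (hU : Tendsto (fun k : ℕ => Zt y UClass (2 * k) /
      (μ ^ (2 * k) / (((2 * k : ℕ) : ℝ) * Real.log ((2 * k : ℕ) : ℝ) ^ 2))) atTop (𝓝 A))
    {K : Finset (Sym2 P3)} {N : ℕ} (hK : ∃ B : ℝ, 0 < B ∧
      Tendsto (fun k : ℕ => Zt y (KClass K) (2 * k) /
        (((2 * k : ℕ) : ℝ) ^ N * Zt y UClass (2 * k))) atTop (𝓝 B)) :
    ∃ C : ℝ, 0 < C ∧ Tendsto (fun k : ℕ => Zt y (GClass G K) (2 * k) /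
      (((2 * k : ℕ) : ℝ) ^ N * μ ^ (2 * k) /
        (((2 * k : ℕ) : ℝ) * Real.log ((2 * k : ℕ) : ℝ) ^ 2))) atTop (𝓝 C) := by
  obtain ⟨B, hB, hZ⟩ := hK
  have hy1 : 4096 ≤ y := le_trans (by norm_num) hy
  have key : ∀ c : ℝ, 0 < c → (∀ n, Zt y (GClass G K) n = c * Zt y (KClass K) n) →
      ∃ C : ℝ, 0 < C ∧ Tendsto (fun k : ℕ => Zt y (GClass G K) (2 * k) /
        (((2 * k : ℕ) : ℝ) ^ N * μ ^ (2 * k) /
          (((2 * k : ℕ) : ℝ) * Real.log ((2 * k : ℕ) : ℝ) ^ 2))) atTop (𝓝 C) := by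
    intro c hc h
    refine ⟨c * B * A, by positivity, ((hZ.const_mul c).mul hU).congr' ?_⟩
    filter_upwards [eventually_ge_atTop 2] with k hk
    have h1 : 0 < Zt y UClass (2 * k) :=
      KRing.u_pos (le_trans (by norm_num) hy1) (even_two_mul k) (by omega)
    have h2 : (0 : ℝ) < ((2 * k : ℕ) : ℝ) := by exact_mod_cast (by omega : 0 < 2 * k)
    have h3 : (1 : ℝ) < ((2 * k : ℕ) : ℝ) := by exact_mod_cast (by omega : 1 < 2 * k)
    have h4 : 0 < Real.log ((2 * k : ℕ) : ℝ) := Real.log_pos h3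
    have h5 : 0 < μ ^ (2 * k) := pow_pos hμ _
    rw [h (2 * k)]
    generalize Real.log ((2 * k : ℕ) : ℝ) = L at *
    generalize ((2 * k : ℕ) : ℝ) = X at *
    generalize μ ^ (2 * k) = M at *
    have h6 : 0 < X ^ N := by positivity
    generalize X ^ N = Y at *
    field_simp
  rcases KTen.zt_gclass hG hG' K with h | h
  · exact key 1 one_pos fun n => by rw [one_mul]; exact h y n
  · exact key (1 / 2) (by norm_num) fun n => by rw [← h y n]; ring

theorem sameType_of_unknotted {E F : Finset (Sym2 P3)} (hE : Unknotted E) (hF : Unknotted F) :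
    SameType E F := by
  obtain ⟨φ, hφ⟩ := hE
  obtain ⟨ψ, hψ⟩ := hF
  refine ⟨φ.trans ψ.symm, ?_⟩
  have h1 : (φ.trans ψ.symm) '' body E = ψ.symm '' (φ '' body E) := by
    rw [Set.image_image]
    rfl
  rw [h1, hφ, ← hψ]
  exact ψ.symm_image_image _

/-- The unknot. -/
theorem lim_zero (hy : 10 ^ 24 ≤ y) {K : Finset (Sym2 P3)} (hU : Unknotted K) :
    ∃ B : ℝ, 0 < B ∧ Tendsto (fun k : ℕ => Zt y (KClass K) (2 * k) /
        (((2 * k : ℕ) : ℝ) ^ 0 * Zt y UClass (2 * k))) atTop (𝓝 B) := by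
  have hy1 : 4096 ≤ y := le_trans (by norm_num) hy
  refine ⟨1, one_pos, tendsto_const_nhds.congr' ?_⟩
  filter_upwards [eventually_ge_atTop 2] with k hk
  have h1 : 0 < Zt y UClass (2 * k) :=
    KRing.u_pos (le_trans (by norm_num) hy1) (even_two_mul k) (by omega)
  have h2 : KClass K = UClass := by
    funext E
    refine propext ⟨fun h => ?_, fun h => ?_⟩
    · exact ⟨h.1, h.2.symm.unknotted hU⟩
    · exact ⟨h.1, sameType_of_unknotted hU h.2⟩
  rw [h2, pow_zero, one_mul, div_self h1.ne']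

end Pool.Agent.KFin
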